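import Pool.Agent.W802.DS.Stms

/-! Project DS: gluing keeps differential subordination. -/

set_option autoImplicit false

namespace Pool.Agent.W239.DSGR

open Polynomial Filter Topology W802.DS

theorem deriv_eq (P : ℂ[X]) (w : ℂ) :
    P.derivative.eval w = P.divX.eval w + w * P.divX.derivative.eval w := by
  have h := P.divX_mul_X_add
  have h2 := congrArg (fun q => (derivative q).eval w) h
  simp only [derivative_add, derivative_mul, derivative_X, derivative_C, eval_add, eval_mul,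
    eval_X, mul_one, add_zero] at h2
  rw [← h2]
  ring

theorem gl_deriv (D k : ℕ) (E P : ℂ[X]) (z : ℂ) :
    (gl D (k + 1) E P).derivative.eval z =
      ((2 * k + 1 + D : ℕ) : ℂ) * z ^ (2 * k) * E.eval z * P.derivative.eval (z ^ (2 * k + 1 + D)) +
      z ^ (2 * k) * (z * E.derivative.eval z - D * E.eval z) * P.divX.eval (z ^ (2 * k + 1 + D)) := by
  rw [deriv_eq P]
  have e1 : 2 * (k + 1) - 1 = 2 * k + 1 := by omega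
  have e2 : 2 * (k + 1) + D - 1 = 2 * k + D + 1 := by omega
  have e3 : 2 * k + 1 + D = 2 * k + D + 1 := by omega
  unfold gl
  rw [e1, e2, e3]
  simp only [derivative_mul, derivative_comp, derivative_X_pow, eval_add, eval_mul, eval_comp,
    eval_pow, eval_X, eval_natCast, Nat.add_sub_cancel, map_natCast]
  push_cast
  ring

theorem norm_up (a b : ℂ) : ‖a + b‖ ^ 2 ≤ ‖a‖ ^ 2 + 2 * ‖a‖ * ‖b‖ + ‖b‖ ^ 2 := by
  have h := norm_add_le a b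
  have h0 := norm_nonneg (a + b)
  nlinarith [h, h0, norm_nonneg a, norm_nonneg b]

theorem norm_low (a b : ℂ) : ‖a‖ ^ 2 - 2 * ‖a‖ * ‖b‖ + ‖b‖ ^ 2 ≤ ‖a + b‖ ^ 2 := by
  have h := abs_norm_sub_norm_le a (-b)
  rw [norm_neg, sub_neg_eq_add] at h
  have h1 := (sq_le_sq' (by linarith [neg_abs_le (‖a‖ - ‖b‖)]) (le_trans (le_abs_self _) h) :
    (‖a‖ - ‖b‖) ^ 2 ≤ ‖a + b‖ ^ 2)
  nlinarith [h1]

theorem up3 (b T S : ℂ) (β τ σ : ℝ) (hb : ‖b‖ ≤ β) (hT : ‖T‖ ≤ τ) (hS : ‖S‖ ≤ σ) :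
    ‖b + (T + S)‖ ^ 2 ≤ ‖b‖ ^ 2 + ‖T‖ ^ 2 + 2 * β * (τ + σ) + 2 * τ * σ + σ ^ 2 := by
  have h1 := norm_up b (T + S)
  have h2 := norm_up T S
  have h3 := norm_add_le T S
  have hb0 := norm_nonneg b
  have hT0 := norm_nonneg T
  have hS0 := norm_nonneg S
  have h4 : ‖b‖ * ‖T + S‖ ≤ β * (τ + σ) := by
    apply mul_le_mul hb (by linarith) (norm_nonneg _) (by linarith)
  have h5 : ‖T‖ * ‖S‖ ≤ τ * σ := mul_le_mul hT hS hS0 (by linarith)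
  have h6 : ‖S‖ ^ 2 ≤ σ ^ 2 := pow_le_pow_left₀ hS0 hS 2
  nlinarith [h1, h2, h4, h5, h6]

theorem low3 (b T S : ℂ) (β τ σ : ℝ) (hb : ‖b‖ ≤ β) (hT : ‖T‖ ≤ τ) (hS : ‖S‖ ≤ σ) :
    ‖b‖ ^ 2 + ‖T‖ ^ 2 - 2 * β * (τ + σ) - 2 * τ * σ ≤ ‖b + (T + S)‖ ^ 2 := by
  have h1 := norm_low b (T + S)
  have h2 := norm_low T S
  have h3 := norm_add_le T S
  have hb0 := norm_nonneg b
  have hT0 := norm_nonneg T
  have hS0 := norm_nonneg S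
  have h4 : ‖b‖ * ‖T + S‖ ≤ β * (τ + σ) := by
    apply mul_le_mul hb (by linarith) (norm_nonneg _) (by linarith)
  have h5 : ‖T‖ * ‖S‖ ≤ τ * σ := mul_le_mul hT hS hS0 (by linarith)
  nlinarith [h1, h2, h4, h5, sq_nonneg ‖S‖]

theorem bound (P : ℂ[X]) : ∃ K : ℝ, 0 ≤ K ∧ ∀ z : ℂ, ‖z‖ ≤ 1 → ‖P.eval z‖ ≤ K := by
  obtain ⟨K, hK⟩ := (isCompact_closedBall (0 : ℂ) 1).exists_bound_of_continuousOn
    (f := fun z => P.eval z) P.continuous.continuousOn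
  refine ⟨|K|, abs_nonneg _, fun z hz => le_trans (hK z ?_) (le_abs_self _)⟩
  simpa using hz

theorem bound_family (m : ℕ) (w : ℕ → ℂ[X]) : ∃ K : ℝ, 0 ≤ K ∧
    ∀ i ∈ Finset.range m, ∀ z : ℂ, ‖z‖ ≤ 1 → ‖(w i).eval z‖ ≤ K := by
  induction m with
  | zero => exact ⟨0, le_refl _, fun i hi => by simp at hi⟩
  | succ m ih =>
    obtain ⟨K1, h1, h2⟩ := ih
    obtain ⟨K2, h3, h4⟩ := bound (w m)
    refine ⟨K1 + K2, add_nonneg h1 h3, fun i hi z hz => ?_⟩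
    rcases Nat.lt_succ_iff_lt_or_eq.1 (Finset.mem_range.1 hi) with h | h
    · have := h2 i (Finset.mem_range.2 h) z hz
      linarith
    · rw [h]
      have := h4 z hz
      linarith

theorem common_bound (m : ℕ) (u : ℕ → ℂ[X]) (v B E : ℂ[X]) : ∃ K : ℝ, 0 ≤ K ∧
      (∀ z : ℂ, ‖z‖ ≤ 1 → ‖E.eval z‖ ≤ K) ∧ (∀ z : ℂ, ‖z‖ ≤ 1 → ‖E.derivative.eval z‖ ≤ K) ∧
      (∀ z : ℂ, ‖z‖ ≤ 1 → ‖B.derivative.eval z‖ ≤ K) ∧
      (∀ z : ℂ, ‖z‖ ≤ 1 → ‖v.derivative.eval z‖ ≤ K) ∧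
      (∀ z : ℂ, ‖z‖ ≤ 1 → ‖v.divX.eval z‖ ≤ K) ∧
      (∀ i ∈ Finset.range (m + 1), ∀ z : ℂ, ‖z‖ ≤ 1 → ‖(u i).derivative.eval z‖ ≤ K) ∧
      (∀ i ∈ Finset.range (m + 1), ∀ z : ℂ, ‖z‖ ≤ 1 → ‖(u i).divX.eval z‖ ≤ K) := by
  obtain ⟨K1, p1, q1⟩ := bound E
  obtain ⟨K2, p2, q2⟩ := bound E.derivative
  obtain ⟨K3, p3, q3⟩ := bound B.derivative
  obtain ⟨K4, p4, q4⟩ := bound v.derivative
  obtain ⟨K5, p5, q5⟩ := bound v.divX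
  obtain ⟨K6, p6, q6⟩ := bound_family (m + 1) (fun i => (u i).derivative)
  obtain ⟨K7, p7, q7⟩ := bound_family (m + 1) (fun i => (u i).divX)
  refine ⟨K1 + K2 + K3 + K4 + K5 + K6 + K7, by linarith, ?_, ?_, ?_, ?_, ?_, ?_, ?_⟩
  · intro z hz; have := q1 z hz; linarith
  · intro z hz; have := q2 z hz; linarith
  · intro z hz; have := q3 z hz; linarith
  · intro z hz; have := q4 z hz; linarith
  · intro z hz; have := q5 z hz; linarith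
  · intro i hi z hz; have := q6 i hi z hz; linarith
  · intro i hi z hz; have := q7 i hi z hz; linarith

/-- the first part of the derivative -/
noncomputable def TT (D k : ℕ) (E P : ℂ[X]) (z : ℂ) : ℂ :=
  ((2 * k + 1 + D : ℕ) : ℂ) * z ^ (2 * k) * E.eval z * P.derivative.eval (z ^ (2 * k + 1 + D))

/-- the second part of the derivative -/
noncomputable def SS (D k : ℕ) (E P : ℂ[X]) (z : ℂ) : ℂ :=
  z ^ (2 * k) * (z * E.derivative.eval z - D * E.eval z) * P.divX.eval (z ^ (2 * k + 1 + D))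

theorem TT_le (D k : ℕ) (E P : ℂ[X]) (z : ℂ) (K : ℝ) (hE : ‖E.eval z‖ ≤ K)
    (hP : ‖P.derivative.eval (z ^ (2 * k + 1 + D))‖ ≤ K) (hK0 : 0 ≤ K) :
    ‖TT D k E P z‖ ≤ K ^ 2 * ((2 * k + 1 + D : ℕ) : ℝ) * ‖z‖ ^ (2 * k) := by
  unfold TT
  rw [norm_mul, norm_mul, norm_mul, norm_pow, Complex.norm_natCast]
  calc ((2 * k + 1 + D : ℕ) : ℝ) * ‖z‖ ^ (2 * k) * ‖E.eval z‖ *
        ‖P.derivative.eval (z ^ (2 * k + 1 + D))‖
      ≤ ((2 * k + 1 + D : ℕ) : ℝ) * ‖z‖ ^ (2 * k) * K * K := by gcongr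
    _ = K ^ 2 * ((2 * k + 1 + D : ℕ) : ℝ) * ‖z‖ ^ (2 * k) := by ring

theorem SS_le (D k : ℕ) (E P : ℂ[X]) (z : ℂ) (K : ℝ) (hz : ‖z‖ ≤ 1) (hE : ‖E.eval z‖ ≤ K)
    (hE' : ‖E.derivative.eval z‖ ≤ K)
    (hP : ‖P.divX.eval (z ^ (2 * k + 1 + D))‖ ≤ K) (hK0 : 0 ≤ K) :
    ‖SS D k E P z‖ ≤ (1 + D) * K ^ 2 * ‖z‖ ^ (2 * k) := by
  have h1 : ‖z * E.derivative.eval z - D * E.eval z‖ ≤ (1 + D) * K := by
    calc ‖z * E.derivative.eval z - D * E.eval z‖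
        ≤ ‖z * E.derivative.eval z‖ + ‖(D : ℂ) * E.eval z‖ := norm_sub_le _ _
      _ = ‖z‖ * ‖E.derivative.eval z‖ + D * ‖E.eval z‖ := by
          rw [norm_mul, norm_mul, Complex.norm_natCast]
      _ ≤ 1 * K + D * K := by gcongr
      _ = (1 + D) * K := by ring
  unfold SS
  rw [norm_mul, norm_mul, norm_pow]
  calc ‖z‖ ^ (2 * k) * ‖z * E.derivative.eval z - D * E.eval z‖ *
        ‖P.divX.eval (z ^ (2 * k + 1 + D))‖
      ≤ ‖z‖ ^ (2 * k) * ((1 + D) * K) * K := by gcongr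
    _ = (1 + D) * K ^ 2 * ‖z‖ ^ (2 * k) := by ring

theorem numeric (K β K' K2 δ ρ N k D m τ σ : ℝ) (hK2 : K2 = 4 * β * K ^ 2 + 4 * β * K' +
      (4 + 2 * m) * K ^ 2 * K' + K' ^ 2) (hm : 0 ≤ m)
    (hK'0 : 0 ≤ K') (hβ0 : 0 ≤ β) (hK20 : 0 ≤ K2) (hk : 0 ≤ k) (hN1 : 1 ≤ N)
    (hMbig : K2 * (2 + D) ≤ δ ^ 2 * (k + 1)) (hNle : N ≤ (2 + D) * (k + 1))
    (hρ0 : 0 ≤ ρ) (hρ1 : ρ ≤ 1) (hτ : τ = K ^ 2 * N * ρ) (hσ : σ = K' * ρ) :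
    4 * β * (τ + σ) + (4 + 2 * m) * (τ * σ) + σ ^ 2 ≤ δ ^ 2 * (k + 1) ^ 2 * ρ := by
  have hN0 : 0 ≤ N := by linarith
  have hK22 : 0 ≤ K ^ 2 := sq_nonneg K
  have hK'2 : 0 ≤ K' ^ 2 := sq_nonneg K'
  have hts : τ * σ ≤ K ^ 2 * K' * N * ρ := by
    have h1 : τ * σ = (K ^ 2 * K' * N * ρ) * ρ := by rw [hτ, hσ]; ring
    rw [h1]
    exact mul_le_of_le_one_right
      (mul_nonneg (mul_nonneg (mul_nonneg hK22 hK'0) hN0) hρ0) hρ1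
  have hss : σ ^ 2 ≤ K' ^ 2 * N * ρ := by
    have h1 : σ ^ 2 = K' ^ 2 * ρ * ρ := by rw [hσ]; ring
    rw [h1]
    have h2 : K' ^ 2 * ρ * ρ ≤ K' ^ 2 * ρ * 1 :=
      mul_le_mul_of_nonneg_left hρ1 (mul_nonneg hK'2 hρ0)
    have h3 : K' ^ 2 * ρ * 1 ≤ K' ^ 2 * ρ * N :=
      mul_le_mul_of_nonneg_left hN1 (mul_nonneg hK'2 hρ0)
    linarith
  have hσN : σ ≤ K' * N * ρ := by
    rw [hσ]
    have h3 : K' * ρ * 1 ≤ K' * ρ * N :=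
      mul_le_mul_of_nonneg_left hN1 (mul_nonneg hK'0 hρ0)
    linarith
  have h1 : 4 * β * (τ + σ) ≤ 4 * β * (K ^ 2 * N * ρ + K' * N * ρ) := by
    apply mul_le_mul_of_nonneg_left _ (by linarith)
    linarith
  have h2 : (4 + 2 * m) * (τ * σ) ≤ (4 + 2 * m) * (K ^ 2 * K' * N * ρ) :=
    mul_le_mul_of_nonneg_left hts (by linarith)
  have h3 : K2 * N * ρ = 4 * β * (K ^ 2 * N * ρ + K' * N * ρ) +
      (4 + 2 * m) * (K ^ 2 * K' * N * ρ) + K' ^ 2 * N * ρ := by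
    rw [hK2]; ring
  have h4 : K2 * N ≤ δ ^ 2 * (k + 1) ^ 2 := by
    have h5 : K2 * N ≤ K2 * ((2 + D) * (k + 1)) := mul_le_mul_of_nonneg_left hNle hK20
    have h6 : (K2 * (2 + D)) * (k + 1) ≤ (δ ^ 2 * (k + 1)) * (k + 1) :=
      mul_le_mul_of_nonneg_right hMbig (by linarith)
    linarith
  have h5 : K2 * N * ρ ≤ δ ^ 2 * (k + 1) ^ 2 * ρ := mul_le_mul_of_nonneg_right h4 hρ0
  linarith

theorem last_eq (δ : ℝ) (k : ℕ) (z : ℂ) :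
    ‖(C (δ : ℂ) * X ^ (k + 1) : ℂ[X]).derivative.eval z‖ ^ 2 =
      δ ^ 2 * ((k : ℝ) + 1) ^ 2 * ‖z‖ ^ (2 * k) := by
  rw [derivative_C_mul_X_pow]
  rw [eval_mul, eval_C, eval_pow, eval_X, Nat.add_sub_cancel, norm_mul, norm_mul, norm_pow,
    Complex.norm_real, Real.norm_eq_abs]
  have h1 : ‖((k + 1 : ℕ) : ℂ)‖ = (k : ℝ) + 1 := by
    rw [Complex.norm_natCast]
    push_cast
    ring
  rw [h1, mul_pow, mul_pow, sq_abs]
  ring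

theorem sub_TT (D k m : ℕ) (E v : ℂ[X]) (u : ℕ → ℂ[X]) (z : ℂ)
    (h1 : ‖v.derivative.eval (z ^ (2 * k + 1 + D))‖ ^ 2 ≤
    ∑ i ∈ Finset.range (m + 1), ‖(u i).derivative.eval (z ^ (2 * k + 1 + D))‖ ^ 2) :
    ‖TT D k E v z‖ ^ 2 ≤ ‖TT D k E (u 0) z‖ ^ 2 +
      ∑ i ∈ Finset.range m, ‖TT D k E (u (i + 1)) z‖ ^ 2 := by
  rw [Finset.sum_range_succ'] at h1
  have h2 : ∀ P : ℂ[X], ‖TT D k E P z‖ ^ 2 =
      ‖((2 * k + 1 + D : ℕ) : ℂ) * z ^ (2 * k) * E.eval z‖ ^ 2 *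
      ‖P.derivative.eval (z ^ (2 * k + 1 + D))‖ ^ 2 := by
    intro P
    unfold TT
    rw [norm_mul, mul_pow]
  rw [h2 v, h2 (u 0)]
  simp only [h2]
  rw [← Finset.mul_sum, ← mul_add]
  refine mul_le_mul_of_nonneg_left ?_ (sq_nonneg _)
  linarith

theorem main : S_GR := by
  intro m u v hsub B E D d s x y hsd δ hδ
  obtain ⟨K, hK0, hKE, hKE', hKB, hKv, hKv', hKu, hKu'⟩ := common_bound m u v B E
  obtain ⟨K', hK'⟩ : ∃ K' : ℝ, K' = (1 + D) * K ^ 2 := ⟨_, rfl⟩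
  have hK'0 : 0 ≤ K' := by rw [hK']; positivity
  obtain ⟨β, hβ⟩ : ∃ β : ℝ, β = |s| * K := ⟨_, rfl⟩
  have hβ0 : 0 ≤ β := by rw [hβ]; positivity
  obtain ⟨K2, hK2⟩ : ∃ K2 : ℝ, K2 = 4 * β * K ^ 2 + 4 * β * K' +
    (4 + 2 * m) * K ^ 2 * K' + K' ^ 2 := ⟨_, rfl⟩
  have hK20 : 0 ≤ K2 := by rw [hK2]; positivity
  obtain ⟨M1, hM1⟩ := exists_nat_ge (K2 * (2 + D) / δ ^ 2)
  refine ⟨M1 + 1, fun M hM z hz => ?_⟩
  obtain ⟨k, rfl⟩ : ∃ k, M = k + 1 := ⟨M - 1, by omega⟩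
  have hδ2 : 0 < δ ^ 2 := by positivity
  have hMbig : K2 * (2 + D) ≤ δ ^ 2 * ((k : ℝ) + 1) := by
    have h1 : (M1 : ℝ) ≤ (k : ℝ) + 1 := by
      have : M1 ≤ k + 1 := by omega
      exact_mod_cast this
    have h2 : K2 * (2 + D) / δ ^ 2 ≤ (k : ℝ) + 1 := le_trans hM1 h1
    rw [div_le_iff₀ hδ2] at h2
    linarith
  have hzN : ‖z ^ (2 * k + 1 + D)‖ ≤ 1 := by
    rw [norm_pow]
    exact pow_le_one₀ (norm_nonneg _) hz
  have hgl : ∀ P : ℂ[X], (gl D (k + 1) E P).derivative.eval z = TT D k E P z + SS D k E P z :=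
    fun P => gl_deriv D k E P z
  obtain ⟨ρ, hρ⟩ : ∃ ρ : ℝ, ρ = ‖z‖ ^ (2 * k) := ⟨_, rfl⟩
  have hρ0 : 0 ≤ ρ := by rw [hρ]; positivity
  have hρ1 : ρ ≤ 1 := by rw [hρ]; exact pow_le_one₀ (norm_nonneg _) hz
  obtain ⟨τ, hτ⟩ : ∃ τ : ℝ, τ = K ^ 2 * ((2 * k + 1 + D : ℕ) : ℝ) * ρ := ⟨_, rfl⟩
  obtain ⟨σ, hσ⟩ : ∃ σ : ℝ, σ = K' * ρ := ⟨_, rfl⟩
  have hT : ∀ P : ℂ[X], ‖P.derivative.eval (z ^ (2 * k + 1 + D))‖ ≤ K → ‖TT D k E P z‖ ≤ τ := by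
    intro P hP
    rw [hτ, hρ]
    exact TT_le D k E P z K (hKE z hz) hP hK0
  have hS : ∀ P : ℂ[X], ‖P.divX.eval (z ^ (2 * k + 1 + D))‖ ≤ K → ‖SS D k E P z‖ ≤ σ := by
    intro P hP
    rw [hσ, hρ, hK']
    exact SS_le D k E P z K hz (hKE z hz) (hKE' z hz) hP hK0
  have hbs : ‖(s : ℂ) * B.derivative.eval z‖ ≤ β := by
    rw [norm_mul, Complex.norm_real, Real.norm_eq_abs, hβ]
    exact mul_le_mul_of_nonneg_left (hKB z hz) (abs_nonneg _)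
  have habs : |s| = |d| := by
    rw [← sq_eq_sq₀ (abs_nonneg _) (abs_nonneg _), sq_abs, sq_abs]
    exact hsd
  have hbeq : ‖(d : ℂ) * B.derivative.eval z‖ = ‖(s : ℂ) * B.derivative.eval z‖ := by
    rw [norm_mul, norm_mul, Complex.norm_real, Complex.norm_real, Real.norm_eq_abs,
      Real.norm_eq_abs, habs]
  have hL := up3 ((s : ℂ) * B.derivative.eval z) (TT D k E v z) (SS D k E v z) β τ σ hbs
    (hT v (hKv _ hzN)) (hS v (hKv' _ hzN))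
  have h0m : 0 ∈ Finset.range (m + 1) := by simp
  have hR := low3 ((d : ℂ) * B.derivative.eval z) (TT D k E (u 0) z) (SS D k E (u 0) z) β τ σ
    (by rw [hbeq]; exact hbs) (hT (u 0) (hKu 0 h0m _ hzN)) (hS (u 0) (hKu' 0 h0m _ hzN))
  have hmid : (∑ i ∈ Finset.range m, ‖TT D k E (u (i + 1)) z‖ ^ 2) - m * (2 * τ * σ) ≤
      ∑ i ∈ Finset.range m, ‖TT D k E (u (i + 1)) z + SS D k E (u (i + 1)) z‖ ^ 2 := by
    have h1 : ∑ i ∈ Finset.range m, (‖TT D k E (u (i + 1)) z‖ ^ 2 - 2 * τ * σ) ≤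
        ∑ i ∈ Finset.range m, ‖TT D k E (u (i + 1)) z + SS D k E (u (i + 1)) z‖ ^ 2 := by
      refine Finset.sum_le_sum fun i hi => ?_
      have hi' : i + 1 ∈ Finset.range (m + 1) := by
        have := Finset.mem_range.1 hi
        exact Finset.mem_range.2 (by omega)
      have h2 := low3 0 (TT D k E (u (i + 1)) z) (SS D k E (u (i + 1)) z) 0 τ σ
        (by rw [norm_zero]) (hT _ (hKu _ hi' _ hzN)) (hS _ (hKu' _ hi' _ hzN))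
      rw [norm_zero, zero_add] at h2
      linarith
    rw [Finset.sum_sub_distrib, Finset.sum_const, Finset.card_range, nsmul_eq_mul] at h1
    exact h1
  have hTsub := sub_TT D k m E v u z (hsub _ hzN)
  have hlast := last_eq δ k z
  have hlhs : (C (y : ℂ) + C (s : ℂ) * B + gl D (k + 1) E v).derivative.eval z =
      (s : ℂ) * B.derivative.eval z + (TT D k E v z + SS D k E v z) := by
    rw [← hgl, derivative_add, derivative_add, derivative_C, derivative_C_mul, zero_add, eval_add,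
      eval_mul, eval_C]
  have hrhs : (C (x : ℂ) + C (d : ℂ) * B + gl D (k + 1) E (u 0)).derivative.eval z =
      (d : ℂ) * B.derivative.eval z + (TT D k E (u 0) z + SS D k E (u 0) z) := by
    rw [← hgl, derivative_add, derivative_add, derivative_C, derivative_C_mul, zero_add, eval_add,
      eval_mul, eval_C]
  rw [hlhs, hrhs, hlast, ← hρ]
  have hgl2 : (∑ i ∈ Finset.range m, ‖(gl D (k + 1) E (u (i + 1))).derivative.eval z‖ ^ 2) =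
      ∑ i ∈ Finset.range m, ‖TT D k E (u (i + 1)) z + SS D k E (u (i + 1)) z‖ ^ 2 :=
    Finset.sum_congr rfl fun i _ => by rw [hgl]
  rw [hgl2]
  have hN1 : (1 : ℝ) ≤ ((2 * k + 1 + D : ℕ) : ℝ) := by
    have : 1 ≤ 2 * k + 1 + D := by omega
    exact_mod_cast this
  have hNle : ((2 * k + 1 + D : ℕ) : ℝ) ≤ (2 + D) * ((k : ℝ) + 1) := by
    push_cast
    have : (0 : ℝ) ≤ (D : ℝ) * k := by positivity
    nlinarith
  have hnum := numeric K β K' K2 δ ρ ((2 * k + 1 + D : ℕ) : ℝ) k D m τ σ hK2 (Nat.cast_nonneg m)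
    hK'0 hβ0 hK20 (Nat.cast_nonneg k) hN1 hMbig hNle hρ0 hρ1 hτ hσ
  rw [hbeq] at hR
  have e1 : (m : ℝ) * (2 * τ * σ) = 2 * m * (τ * σ) := by ring
  have e2 : 2 * τ * σ = 2 * (τ * σ) := by ring
  have e3 : (4 + 2 * (m : ℝ)) * (τ * σ) = 4 * (τ * σ) + 2 * m * (τ * σ) := by ring
  rw [e2] at hL hR
  rw [e1] at hmid
  rw [e3] at hnum
  linarith

end Pool.Agent.W239.DSGR
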